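import Mathlib
import Pool.Agent.Helper868_zf.F

set_option autoImplicit false

namespace Pool.Agent.Results.MP_e9161b_co.SparseRange

open Pool.Agent.Helper868_zf

/-- There is an absolute constant `c > 0` such that the maximal fractional cochromatic number
`ZfMax n m` over graphs with `n` vertices and `m` edges satisfies
`ZfMax n m ≤ ZfMax n (m + 1)` whenever `n ≥ 2` and `m * (log n) ^ 2 ≤ c * n ^ 2`. -/
theorem result : ∃ c : ℝ, 0 < c ∧ ∀ n : ℕ, 2 ≤ n → ∀ m : ℕ,
    (m : ℝ) * Real.log n ^ 2 ≤ c * (n : ℝ) ^ 2 → ZfMax n m ≤ ZfMax n (m + 1) :=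
  main

end Pool.Agent.Results.MP_e9161b_co.SparseRange
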